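import Mathlib

set_option autoImplicit false

namespace Pool.Agent.Results.MP_3ec6a8_co.Counter

/-- Vertices are triples (side, block, index). With `c = false` the edges join opposite sides inside
a block, with `c = true` they join opposite sides of different blocks. -/
def Gr (d : ℕ) (c : Bool) : SimpleGraph (Bool × Bool × Fin d) where
  Adj u v := u.1 ≠ v.1 ∧ (u.2.1 ^^ v.2.1) = c
  symm := ⟨fun _ _ h => ⟨h.1.symm, by rw [Bool.xor_comm]; exact h.2⟩⟩
  loopless := ⟨fun _ h => h.1 rfl⟩

theorem nb (d : ℕ) (c : Bool) (v : Bool × Bool × Fin d) :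
    ((Gr d c).neighborSet v).ncard = d := by
  have : (Gr d c).neighborSet v = (fun j : Fin d => (!v.1, v.2.1 ^^ c, j)) '' Set.univ := by
    ext ⟨s, b, j⟩
    obtain ⟨s', b', j'⟩ := v
    simp only [SimpleGraph.mem_neighborSet, Gr, Set.image_univ, Set.mem_range, Prod.mk.injEq,
      exists_eq_right_right]
    cases s <;> cases s' <;> cases b <;> cases b' <;> cases c <;> simp
  rw [this, Set.ncard_image_of_injective _ (fun a b h => by simpa using h), Set.ncard_univ]
  simp

theorem edges (d : ℕ) (c : Bool) : (Gr d c).edgeSet.ncard = 2 * d * d := by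
  classical
  have h := (Gr d c).sum_degrees_eq_twice_card_edges
  have hd : ∀ v, (Gr d c).degree v = d := by
    intro v
    rw [← SimpleGraph.card_neighborSet_eq_degree, ← Nat.card_eq_fintype_card,
      Nat.card_coe_set_eq, nb]
  simp only [hd, Finset.sum_const, Finset.card_univ, Fintype.card_prod, Fintype.card_bool,
    Fintype.card_fin, smul_eq_mul] at h
  rw [← SimpleGraph.coe_edgeFinset, Set.ncard_coe_finset]
  nlinarith

theorem result : ∀ d : ℕ, 1 ≤ d →
    ∃ (V : Type) (_ : Finite V) (side : V → Bool) (F : Fin (2 * d) → SimpleGraph V),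
      (∀ i u v, (F i).Adj u v → side u ≠ side v) ∧
      (∀ i v, ((F i).neighborSet v).ncard = d) ∧
      (∀ i, (F i).edgeSet.ncard = (2 * d) * d ∧ (2 * d - 1) * d < (F i).edgeSet.ncard) ∧
      ¬ ∃ e : Fin (2 * d) → Sym2 V, (∀ i, e i ∈ (F i).edgeSet) ∧
        ∀ i j, i ≠ j → ∀ v, v ∈ e i → v ∉ e j := by
  intro d hd
  let z : Fin (2 * d) := ⟨0, by omega⟩
  refine ⟨Bool × Bool × Fin d, inferInstance, fun v => v.1, fun i => Gr d (decide (i = z)),
    fun i u v h => h.1, fun i v => nb d _ v, fun i => ⟨edges d _, by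
      rw [edges]
      exact Nat.mul_lt_mul_of_pos_right (by omega) (by omega)⟩, ?_⟩
  rintro ⟨e, he, hdis⟩
  have hex : ∀ i, ∃ a b : Bool × Fin d, e i = s((true, a), (false, b)) ∧
      (a.1 ^^ b.1) = decide (i = z) := by
    intro i
    have h := he i
    revert h
    generalize e i = x
    induction x using Sym2.ind with
    | _ u v =>
      intro h
      rw [SimpleGraph.mem_edgeSet] at h
      obtain ⟨s, a⟩ := u
      obtain ⟨t, b⟩ := v
      obtain ⟨h1, h2⟩ := h
      cases s <;> cases t
      · exact absurd rfl h1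
      · exact ⟨b, a, Sym2.eq_swap, by rw [Bool.xor_comm]; exact h2⟩
      · exact ⟨a, b, rfl, h2⟩
      · exact absurd rfl h1
  choose A B hAB hx using hex
  have hcard : Fintype.card (Fin (2 * d)) = Fintype.card (Bool × Fin d) := by simp
  have hA : Function.Bijective A := by
    refine (Fintype.bijective_iff_injective_and_card A).2 ⟨?_, hcard⟩
    intro i j hij
    by_contra hne
    refine hdis i j hne (true, A i) (by rw [hAB i]; exact Sym2.mem_mk_left _ _) ?_
    rw [hAB j, hij]; exact Sym2.mem_mk_left _ _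
  have hB : Function.Bijective B := by
    refine (Fintype.bijective_iff_injective_and_card B).2 ⟨?_, hcard⟩
    intro i j hij
    by_contra hne
    refine hdis i j hne (false, B i) (by rw [hAB i]; exact Sym2.mem_mk_right _ _) ?_
    rw [hAB j, hij]; exact Sym2.mem_mk_right _ _
  have s1 := hA.sum_comp (fun x : Bool × Fin d => x.1.toNat)
  have s2 := hB.sum_comp (fun x : Bool × Fin d => x.1.toNat)
  have s3 := s1.trans s2.symm
  rw [← Finset.add_sum_erase _ _ (Finset.mem_univ z),
    ← Finset.add_sum_erase _ (fun i => (B i).1.toNat) (Finset.mem_univ z)] at s3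
  have s4 : ∑ i ∈ Finset.univ.erase z, (A i).1.toNat = ∑ i ∈ Finset.univ.erase z, (B i).1.toNat := by
    apply Finset.sum_congr rfl
    intro i hi
    have h1 := hx i
    have h2 : decide (i = z) = false := by simpa using (Finset.mem_erase.1 hi).1
    rw [h2] at h1
    revert h1
    cases (A i).1 <;> cases (B i).1 <;> simp
  have h0 := hx z
  rw [s4] at s3
  have s5 : (A z).1.toNat = (B z).1.toNat := by omega
  revert h0 s5
  cases (A z).1 <;> cases (B z).1 <;> simp

end Pool.Agent.Results.MP_3ec6a8_co.Counter
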